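import Pool.Agent.Lib.MP_e277cf_an.Limit
import Pool.Agent.Lib.MP_e277cf_an.Nest

/-!
Counterexample with `k = 3`: for all small `0 ≤ δ ≤ ε` the unit disc with the closed `ε`-discs
about `0` and `1/4` removed and the disc of radius `2` with the closed `δ`-discs removed are nested
bounded `3`-connected domains, the inclusion is a homotopy equivalence, the minimal energy is
finite, and no diffeomorphism attains it, not even within its own homotopy class.
-/

open Pool.Agent.Lib.MP_e277cf_an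

namespace Pool.Agent.Results.MP_e277cf_an.NoMinimalDiffeo

theorem result :
    ∃ ε₀ : ℝ, 0 < ε₀ ∧ ∀ ε δ : ℝ, 0 ≤ δ → δ ≤ ε → ε < ε₀ →
      IsKConnectedDomain 3 (circleDomain 1 ε) ∧ IsKConnectedDomain 3 (circleDomain 2 δ) ∧
      Bornology.IsBounded (circleDomain 1 ε) ∧ Bornology.IsBounded (circleDomain 2 δ) ∧
      circleDomain 1 ε ⊆ circleDomain 2 δ ∧
      (δ < ε → closure (circleDomain 1 ε) ⊆ circleDomain 2 δ) ∧
      InclusionIsHomotopyEquiv (circleDomain 1 ε) (circleDomain 2 δ) ∧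
      minEnergy (circleDomain 1 ε) (circleDomain 2 δ) < ⊤ ∧
      (¬∃ h : ℂ → ℂ, IsEnergyMinimalDiffeo (circleDomain 1 ε) (circleDomain 2 δ) h) ∧
      classEnergy (circleDomain 1 ε) (circleDomain 2 δ) (fun z => z) < ⊤ ∧
      ∀ h : ℂ → ℂ, IsDiffeoOnto (circleDomain 1 ε) (circleDomain 2 δ) h →
        classEnergy (circleDomain 1 ε) (circleDomain 2 δ) h < ⊤ →
        classEnergy (circleDomain 1 ε) (circleDomain 2 δ) h <
          energy (circleDomain 1 ε) (fun z => fderiv ℝ h z 1) (fun z => fderiv ℝ h z Complex.I) := by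
  obtain ⟨ε₀, e0, e1, H⟩ := exists_eps
  refine ⟨ε₀, e0, fun ε δ h0 h1 hε => ?_⟩
  have hε' : ε ≤ 1 / 32 := hε.le.trans e1
  have M := fun h a b c => (@isMinimal_of _ _ (isOpen_circleDomain 1 ε) (isBounded_circleDomain 1 ε)
    (isBounded_circleDomain 2 δ) h a b c).elim (H ε δ h0 h1 hε h)
  exact ⟨isKConnected_circleDomain le_rfl (h0.trans h1) hε',
    isKConnected_circleDomain (by norm_num) h0 (h1.trans hε'),
    isBounded_circleDomain _ _, isBounded_circleDomain _ _, nest_subset h1, closure_subset_nest,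
    inclusion_homotopyEquiv h0 h1 hε',
    (minEnergy_le_class _ _ _).trans_lt (classEnergy_lt_top h0 h1 hε'),
    fun ⟨h, a, b, c⟩ => M h a (b.trans_le (minEnergy_le_class _ _ _)) (b.trans_lt c),
    classEnergy_lt_top h0 h1 hε', fun h a c => lt_of_not_ge fun b => M h a b (b.trans_lt c)⟩

end Pool.Agent.Results.MP_e277cf_an.NoMinimalDiffeo
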